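import Pool.Agent.N209.GX.Conv
import Pool.Agent.N190.FE.Main

/-!
# The standard conjectures over all algebraically closed fields of one characteristic
-/

set_option autoImplicit false

open CategoryTheory AlgebraicGeometry

universe u v

namespace Pool.Agent.N209.GX

open Pool.Agent.H914 Pool.Agent.H447 Pool.Agent.TH720.LB Pool.Agent.N190.FE
  VarClass Obj WeilCohomology

section One

variable {k : Type u} [Field k] {𝒱 : VarClass k} {ops : CycleOps 𝒱}
  {W : WeilCohomology.{u, v} ops}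

/-- The conjecture B in the form of the inverses. -/
lemma lsc_of_lefschetzB
    (h : ∀ (X : 𝒱.Obj) (D : X.Cycles), Lef W X D → LefschetzB W X D) : LSC W := by
  intro X D hL i hi
  obtain ⟨z, hz, h1, -⟩ := Pool.Agent.W550.B.exists_inverts hL.1 hL.2 (h X D hL) i hi
  exact ⟨z, hz, h1⟩

/-- Hard Lefschetz in dimension zero. -/
lemma lef_zero {X : 𝒱.Obj} (h0 : X.dim = 0) : Lef W X 0 := by
  refine ⟨SmVar.IsCyc.zero _ _, fun i hi => ?_⟩
  have h1 : X.dim - i = 0 := by omega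
  have h2 : 2 * X.dim - i = i := by omega
  rw [h1, h2]
  exact ⟨fun a _ h => by simpa using h, fun b hb => ⟨b, hb, by simp⟩⟩

/-- The sign conjecture in dimension zero. -/
lemma sign_zero {X : 𝒱.Obj} (h0 : X.dim = 0) : SignStd W X := by
  have hL := lef_zero (W := W) h0
  exact GS.sign_of_kunneth (GS.kunneth_of_B hL.1 hL.2 (GS.lefschetzB_zero h0))

end One

section Ext

variable {k₁ : Type u} [Field k₁] {𝒱₁ : VarClass k₁} {ops₁ : CycleOps 𝒱₁}
  {W₁ : WeilCohomology.{u, v} ops₁}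

/-- **Extension of the base field** (helper190's theorem, for polarisations without sections). -/
theorem lefschetzB_ext {k : Type u} [Field k] {𝒱 : VarClass k} {ops : CycleOps 𝒱}
    {W : WeilCohomology.{u, v} ops} {amp : ∀ X : 𝒱.Obj, Set X.Cycles}
    (hamp : IsPolarisation W amp) (hM : HasModels W₁ W amp)
    (h : LSC W₁) {X : 𝒱.Obj} {D : X.Cycles} (hD : Lef W X D) :
    LefschetzB W X D := by
  obtain ⟨D', hD'⟩ := hamp.nonempty X
  have h1 := hamp.lef X D' hD'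
  refine Pool.Agent.W534.lefschetzB_indep h1.1 h1.2 hD.1 hD.2
    (lefschetzB_of_models (W₁ := W₁) h1 ?_)
  intro z hz
  obtain ⟨M⟩ := hM (X.prod X) _ (hamp.prod X X D' hD' D' hD') (X.dim + 1) z hz
  exact ⟨M, symRanks_of_LSC h M.F.lef _⟩

variable {𝓔 : Set (Extension W₁)} {P : 𝒱₁.Obj} {h : P.Cycles}

/-- The conjecture B over `k₁` from the sign conjecture over `k₁` and the separation of the middle
degree over the extensions. -/
theorem lsc_of_separates (hP : LineLike W₁ P h) (hS : HasSections 𝓔 P h)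
    (hs : ∀ X : 𝒱₁.Obj, SignStd W₁ X)
    (hsep : ∀ F ∈ 𝓔, ∀ Z : F.𝒱.Obj, Odd Z.dim → GS.Separates F.W Z) : LSC W₁ := by
  apply lsc_of_lefschetzB
  intro X D hL
  rcases Nat.eq_zero_or_pos X.dim with h0 | hpos
  · exact GS.lefschetzB_zero h0
  obtain ⟨E, hE, F, hF, ⟨S⟩⟩ := hS X hpos
  have hPl := GS.IsProjectiveLine.toLine hP.toLine
  have hcyc : (X.prod P).IsCyc 1 (sumDiv ops₁ E h) := isCyc_sumDiv hE.1 hPl.proj.to.div
  have hcyc' : ((X.prod P).prod P).IsCyc 1 (sumDiv ops₁ (sumDiv ops₁ E h) h) :=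
    isCyc_sumDiv hcyc hPl.proj.to.div
  have hdim : (X.prod P).dim = X.dim + 1 := by rw [dim_prod X P, hPl.dim]
  have hdim' : ((X.prod P).prod P).dim = X.dim + 1 + 1 := by
    rw [dim_prod (X.prod P) P, hdim, hPl.dim]
  have hZ : Odd S.Z.dim := by
    have h1 := S.dim_eq
    rw [dim_prod] at h1
    rw [Nat.odd_iff]
    omega
  exact Pool.Agent.W534.lefschetzB_indep hE.1 hE.2 hL.1 hL.2
    (GS.lefschetzB_of_half hPl hE.1 hE.2 (hs X)
      (GS.half_of_section hcyc' (by omega) S.toGeneric (hsep F hF S.Z hZ)))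

/-- The sign conjecture over `k₁` from the sign conjecture over the extensions. -/
theorem sign_descends (hP : LineLike W₁ P h) (hS : HasSections 𝓔 P h)
    (hs : ∀ F ∈ 𝓔, ∀ Z : F.𝒱.Obj, SignStd F.W Z) (X : 𝒱₁.Obj) : SignStd W₁ X := by
  rcases Nat.eq_zero_or_pos X.dim with h0 | hpos
  · exact sign_zero h0
  obtain ⟨E, hE, F, hF, ⟨S⟩⟩ := hS X hpos
  have hPl := GS.IsProjectiveLine.toLine hP.toLine
  have hcyc : (X.prod P).IsCyc 1 (sumDiv ops₁ E h) := isCyc_sumDiv hE.1 hPl.proj.to.div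
  have hcyc' : ((X.prod P).prod P).IsCyc 1 (sumDiv ops₁ (sumDiv ops₁ E h) h) :=
    isCyc_sumDiv hcyc hPl.proj.to.div
  have hX' := hPl.hard_prod hE.1 hE.2
  have hX'' := hPl.hard_prod hcyc hX'
  have hdim : (X.prod P).dim = X.dim + 1 := by rw [dim_prod X P, hPl.dim]
  have hdim' : ((X.prod P).prod P).dim = X.dim + 1 + 1 := by
    rw [dim_prod (X.prod P) P, hdim, hPl.dim]
  exact GS.sign_down hPl (GS.sign_down hPl (GS.sign_of_section hcyc' hX'' (by omega)
    (isCyc_sumDiv hcyc' hcyc') S.toGeneric (hs F hF S.Z)))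

/-- The conjecture C for a variety from the conjecture B. -/
lemma kunneth_of_lsc {k : Type u} [Field k] {𝒱 : VarClass k} {ops : CycleOps 𝒱}
    {W : WeilCohomology.{u, v} ops} (hB : LSC W) {X : 𝒱.Obj} {D : X.Cycles} (hD : Lef W X D) :
    KunnethStd W X :=
  GS.kunneth_of_B hD.1 hD.2 (lefschetzB_of_LSC hB hD)

/-- **The equivalences.** -/
theorem main_tfae (hP : LineLike W₁ P h) (hS : HasSections 𝓔 P h) :
    List.TFAE [LSC W₁, ∀ F ∈ 𝓔, LSC F.W, ∀ F ∈ 𝓔, ∀ X, ConjC F.W X,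
      ∀ F ∈ 𝓔, ∀ X, ConjSign F.W X,
      (∀ X, ConjSign W₁ X) ∧ ∀ F ∈ 𝓔, ∀ X : F.𝒱.Obj, Odd X.dim → SplitsMiddle F.W X] := by
  tfae_have 1 → 2 := fun h1 F _ => lsc_of_lefschetzB fun X D hD =>
    lefschetzB_ext F.polarisation F.models h1 hD
  tfae_have 2 → 3 := fun h2 F hF X => by
    obtain ⟨D, hD⟩ := F.polarisation.nonempty X
    exact conjC_iff.2 (kunneth_of_lsc (h2 F hF) (F.polarisation.lef X D hD))
  tfae_have 3 → 4 := fun h3 F hF X => conjSign_iff.2 (GS.sign_of_kunneth (conjC_iff.1 (h3 F hF X)))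
  tfae_have 4 → 5 := fun h4 =>
    ⟨fun X => conjSign_iff.2 (sign_descends hP hS (fun F hF Z => conjSign_iff.1 (h4 F hF Z)) X),
      fun F hF X _ => splitsMiddle_iff.2 (GS.separates_of_sign (conjSign_iff.1 (h4 F hF X)))⟩
  tfae_have 5 → 1 := fun h5 => lsc_of_separates hP hS (fun X => conjSign_iff.1 (h5.1 X))
    fun F hF X hX => splitsMiddle_iff.1 (h5.2 F hF X hX)
  tfae_finish

end Ext

end Pool.Agent.N209.GX
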