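import Pool.Agent.N209.GX.Defs
import Pool.Agent.N209.GS.One

/-!
# Generic hyperplane sections: comparison of the definitions
-/

set_option autoImplicit false

open CategoryTheory AlgebraicGeometry

universe u v

namespace Pool.Agent.N209.GX

open Pool.Agent.H914 Pool.Agent.H447 Pool.Agent.TH720.LB Pool.Agent.N190.FE
  VarClass Obj WeilCohomology

variable {k : Type u} [Field k] {𝒱 : VarClass k} {ops : CycleOps 𝒱}
  {W : WeilCohomology.{u, v} ops} {k' : Type u} [Field k'] {𝒱' : VarClass k'}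
  {ops' : CycleOps 𝒱'} {W' : WeilCohomology.{u, v} ops'}

lemma rational_iff {Z : 𝒱.Obj} {f : ℕ → ℚ} :
    Rational W Z f ↔ ∃ z, GS.ActsByScalars W Z f z := by
  constructor
  · rintro ⟨_, ⟨z, hz, rfl⟩, h⟩
    exact ⟨z, .of hz h⟩
  · rintro ⟨z, h⟩
    exact ⟨_, ⟨z, h.1, rfl⟩, h.app⟩

lemma ite_smul' {K V : Type*} [Field K] [AddCommGroup V] [Module K V] (c : Prop) [Decidable c]
    (x : V) : ((if c then 1 else 0 : ℚ) : K) • x = if c then x else 0 := by
  split_ifs
  · rw [Rat.cast_one, one_smul]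
  · rw [Rat.cast_zero, zero_smul]

lemma conjSign_iff {Z : 𝒱.Obj} : ConjSign W Z ↔ SignStd W Z := by
  constructor
  · rintro ⟨_, ⟨z, hz, rfl⟩, h⟩
    refine ⟨z, hz, fun j x hx => ?_⟩
    rw [h j x hx, ite_smul']
  · rintro ⟨z, hz, h⟩
    refine ⟨_, ⟨z, hz, rfl⟩, fun j x hx => ?_⟩
    rw [h j x hx, ite_smul']

lemma conjC_iff {Z : 𝒱.Obj} : ConjC W Z ↔ KunnethStd W Z := by
  constructor
  · intro h i
    obtain ⟨_, ⟨z, hz, rfl⟩, h⟩ := h i
    refine ⟨z, hz, fun j x hx => ?_⟩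
    rw [h j x hx, ite_smul']
  · intro h i
    obtain ⟨z, hz, h⟩ := h i
    refine ⟨_, ⟨z, hz, rfl⟩, fun j x hx => ?_⟩
    rw [h j x hx, ite_smul']

lemma splitsMiddle_iff {Z : 𝒱.Obj} : SplitsMiddle W Z ↔ GS.Separates W Z := by
  constructor
  · rintro ⟨f, h, hf⟩
    obtain ⟨z, hz⟩ := rational_iff.1 h
    exact ⟨f, z, hz, hf⟩
  · rintro ⟨f, z, hz, hf⟩
    exact ⟨f, rational_iff.2 ⟨z, hz⟩, hf⟩

lemma LineLike.toLine {P : 𝒱.Obj} {h : P.Cycles} (hP : LineLike W P h) :
    GS.IsProjectiveLine W P h :=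
  ⟨hP.dim, hP.div, hP.span.1, hP.span.2⟩

/-- The homomorphism given by a map with the properties. -/
def IsSemiHom.toHom {K A K' A' : Type*} [Field K] [Ring A] [Algebra K A] [Field K'] [Ring A']
    [Algebra K' A'] {σ : K →+* K'} {ρ : A → A'} (h : IsSemiHom σ ρ) : A →+* A' where
  toFun := ρ
  map_one' := h.one
  map_mul' := h.mul
  map_add' := h.add
  map_zero' := by
    have h1 := h.add 0 0
    rw [add_zero] at h1
    exact left_eq_add.1 h1

/-- The generic hyperplane section in the sense of the other definition. -/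
noncomputable def HyperplaneSection.toGeneric {V : 𝒱.Obj} {E : V.Cycles}
    (S : HyperplaneSection W W' V E) : GS.GenericSection W W' V E where
  Z := S.Z
  dim_eq := S.dim_eq
  R := ⟨S.σ, S.restr.hom.toHom, S.restr₂.hom.toHom⟩
  semilinear := S.restr.hom.smul
  semilinear₂ := S.restr₂.hom.smul
  graded := S.restr.graded
  compatFst := S.restr₂.fst
  compatSnd := S.restr₂.snd
  hasClass := S.restr.trace
  weakInj := S.restr.inj
  weakSurj := by
    intro i hi b hb
    obtain ⟨n, c, g, hg⟩ := Submodule.mem_span_set'.1 (S.restr.surj i hi b hb)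
    choose a ha ha' using fun j => (g j).2
    refine ⟨n, c, a, ha, ?_⟩
    rw [← hg]
    refine Finset.sum_congr rfl fun j _ => ?_
    rw [← ha' j]
    rfl
  hasVanishing := S.restr.vanishing
  cyclesFromV := by
    intro f z hz
    obtain ⟨_, ⟨ζ, hζ, rfl⟩, q, hq⟩ := S.restr₂.cycles f _ ⟨z, hz.1, rfl⟩ hz.app
    exact ⟨ζ, hζ, q, hq⟩
  restrictsCycles := by
    intro ζ hζ
    obtain ⟨z, hz, hz'⟩ := S.restr₂.restrict _ ⟨ζ, hζ, rfl⟩
    exact ⟨z, hz, hz'⟩

lemma HyperplaneSection.toGeneric_Z {V : 𝒱.Obj} {E : V.Cycles}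
    (S : HyperplaneSection W W' V E) : S.toGeneric.Z = S.Z := rfl

end Pool.Agent.N209.GX
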