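import Pool.Agent.N190.FE.Stm

/-!
# Generic hyperplane sections over extensions of the base field: definitions
-/

set_option autoImplicit false

open CategoryTheory AlgebraicGeometry

universe u v

namespace Pool.Agent.N209.GX

section Alg

variable {K : Type*} [Field K] {A : Type*} [Ring A] [Algebra K A] {K' : Type*} [Field K']
  {A' : Type*} [Ring A'] [Algebra K' A']

/-- The operator `φ` acts on `gr i` as multiplication by the rational number `f i`, for all `i`. -/
def ScalarOn (gr : ℕ → Submodule K A) (φ : A →ₗ[K] A) (f : ℕ → ℚ) : Prop :=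
  ∀ i, ∀ x ∈ gr i, φ x = (f i : K) • x

/-- `tr h = 1`, and the algebra is spanned by `1` and `h`. -/
def SpannedByTwo (tr : A →ₗ[K] K) (h : A) : Prop :=
  tr h = 1 ∧ ∀ x : A, ∃ a b : K, x = a • 1 + b • h

/-- The map `ρ` is a homomorphism of rings, semilinear over the homomorphism `σ` of fields. -/
structure IsSemiHom (σ : K →+* K') (ρ : A → A') : Prop where
  one : ρ 1 = 1
  mul : ∀ x y, ρ (x * y) = ρ x * ρ y
  add : ∀ x y, ρ (x + y) = ρ x + ρ y
  smul : ∀ (c : K) (x : A), ρ (c • x) = σ c • ρ x

/-- The map `ρ` looks like the restriction to a hyperplane section of dimension `m` with class `e`: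
it is a homomorphism compatible with the gradings and the traces, the weak Lefschetz theorem holds,
and there is a nonzero vanishing class: a class in the middle degree orthogonal to the restrictions
of all classes. -/
structure IsRestr (gr : ℕ → Submodule K A) (gr' : ℕ → Submodule K' A') (tr : A →ₗ[K] K)
    (tr' : A' →ₗ[K'] K') (e : A) (m : ℕ) (σ : K →+* K') (ρ : A → A') : Prop where
  hom : IsSemiHom σ ρ
  graded : ∀ i, ∀ a ∈ gr i, ρ a ∈ gr' i
  trace : ∀ a, tr' (ρ a) = σ (tr (e * a))
  inj : ∀ i ≤ m, ∀ a ∈ gr i, ρ a = 0 → a = 0
  surj : ∀ i < m, ∀ b ∈ gr' i, b ∈ Submodule.span K' (ρ '' gr i)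
  vanishing : ∃ y ∈ gr' m, y ≠ 0 ∧ ∀ a, tr' (y * ρ a) = 0

variable {B : Type*} [Ring B] [Algebra K B] {B' : Type*} [Ring B'] [Algebra K' B']

/-- The map `ρ₂` looks like the restriction from `V × V` to `Z × Z`: it is a homomorphism compatible
with the pull-backs along the projections, it maps the set `C` of the classes of the cycles of
codimension `dim Z` on `V × V` to the set `C'` of these classes on `Z × Z`, and an element of `C'`
which acts on each `H^i(Z)` as a rational number is the restriction of an element of `C` plus a
multiple of the class `δ` of the diagonal. -/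
structure IsRestr₂ (gr' : ℕ → Submodule K' A') (p q : A → B) (p' q' : A' → B')
    (corr : B' → A' →ₗ[K'] A') (C : Set B) (C' : Set B') (δ : B') (σ : K →+* K') (ρ : A → A')
    (ρ₂ : B → B') : Prop where
  hom : IsSemiHom σ ρ₂
  fst : ∀ a, ρ₂ (p a) = p' (ρ a)
  snd : ∀ a, ρ₂ (q a) = q' (ρ a)
  restrict : ∀ x ∈ C, ρ₂ x ∈ C'
  cycles : ∀ f, ∀ z ∈ C', ScalarOn gr' (corr z) f → ∃ x ∈ C, ∃ r : ℚ, z = ρ₂ x + (r : K') • δ

end Alg

open Pool.Agent.H914 Pool.Agent.N190.FE VarClass Obj WeilCohomology

section Defs

variable {k : Type u} [Field k] {𝒱 : VarClass k} {ops : CycleOps 𝒱}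

/-- Some cycle on `Z × Z` of codimension `dim Z` acts on `H^i(Z)` as multiplication by the rational
number `f i`, for all `i`. -/
def Rational (W : WeilCohomology.{u, v} ops) (Z : 𝒱.Obj) (f : ℕ → ℚ) : Prop :=
  ∃ x ∈ classes W (Z.prod Z) Z.dim, ScalarOn (W.gr Z) (W.corr x) f

/-- The conjecture C for `Z`: the projector onto each `H^m(Z)` is induced by an algebraic cycle. -/
def ConjC (W : WeilCohomology.{u, v} ops) (Z : 𝒱.Obj) : Prop :=
  ∀ m, Rational W Z fun i => if i = m then 1 else 0

/-- The sign conjecture for `Z`: the projector onto the even cohomology is induced by an algebraic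
cycle. -/
def ConjSign (W : WeilCohomology.{u, v} ops) (Z : 𝒱.Obj) : Prop :=
  Rational W Z fun i => if Even i then 1 else 0

/-- Some cycle on `Z × Z` acts on each `H^i(Z)` as a rational number `f i`, with different numbers
for the middle degree `dim Z` and for the degree `dim Z - 1` below it. -/
def SplitsMiddle (W : WeilCohomology.{u, v} ops) (Z : 𝒱.Obj) : Prop :=
  ∃ f, Rational W Z f ∧ ∀ i, i + 1 = Z.dim → f i ≠ f (i + 1)

/-- The divisor `D × Y + X × E` on `X × Y`. -/
noncomputable def addDiv (ops : CycleOps 𝒱) {X Y : 𝒱.Obj} (D : X.Cycles) (E : Y.Cycles) :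
    (X.prod Y).Cycles :=
  ops.pull (fst X Y) D + ops.pull (snd X Y) E

/-- `P` behaves like the projective line and `h` like a point on it. -/
structure LineLike (W : WeilCohomology.{u, v} ops) (P : 𝒱.Obj) (h : P.Cycles) : Prop where
  dim : P.dim = 1
  div : P.IsCyc 1 h
  span : SpannedByTwo (W.tr P) (W.cl P h)

/-- The sets of divisors `amp X` look like the sets of the very ample divisors: they satisfy hard
Lefschetz and are compatible with products. -/
structure IsPolarisation (W : WeilCohomology.{u, v} ops) (amp : ∀ X : 𝒱.Obj, Set X.Cycles) :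
    Prop where
  nonempty : ∀ X, (amp X).Nonempty
  lef : ∀ X, ∀ D ∈ amp X, Lef W X D
  prod : ∀ X Y : 𝒱.Obj, ∀ D ∈ amp X, ∀ E ∈ amp Y, addDiv ops D E ∈ amp (X.prod Y)

variable {k' : Type u} [Field k'] {𝒱' : VarClass k'} {ops' : CycleOps 𝒱'}

/-- `Z` behaves like the generic hyperplane section of `V` with respect to the very ample divisor
`E`: a variety over the algebraic closure `k'` of the function field `k(T)` of the dual projective
space `T`, with the corresponding cohomology theory. All the properties are theorems if `E` is
sufficiently ample. (The property `cycles`: the class of a cycle on `Z × Z` which acts on each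
`H^i(Z)` as a rational number is invariant under the Galois group of `k'` over `k(T)`, so that the
cycle may be defined over `k(T)`; and the cycles of codimension `dim Z` over `k(T)` are the
restrictions from `V × V` and the multiples of the diagonal, since the square over `T` of the
universal section is a projective bundle over the complement of the diagonal of `V × V`, and one
over the diagonal.) -/
structure HyperplaneSection (W : WeilCohomology.{u, v} ops) (W' : WeilCohomology.{u, v} ops')
    (V : 𝒱.Obj) (E : V.Cycles) where
  /-- the section -/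
  Z : 𝒱'.Obj
  dim_eq : V.dim = Z.dim + 1
  /-- the homomorphism of the coefficient fields -/
  σ : W.K →+* W'.K
  /-- the restriction from `V` to `Z` -/
  ρ : W.H V → W'.H Z
  /-- the restriction from `V × V` to `Z × Z` -/
  ρ₂ : W.H (V.prod V) → W'.H (Z.prod Z)
  restr : IsRestr (W.gr V) (W'.gr Z) (W.tr V) (W'.tr Z) (W.cl V E) Z.dim σ ρ
  restr₂ : IsRestr₂ (W'.gr Z) (W.map (fst V V)) (W.map (snd V V)) (W'.map (fst Z Z))
    (W'.map (snd Z Z)) W'.corr (classes W (V.prod V) Z.dim) (classes W' (Z.prod Z) Z.dim)
    (W'.cl (Z.prod Z) (ops'.push (diag Z) Z.V.fundCycle)) σ ρ ρ₂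

end Defs

section Ext

variable {k₁ : Type u} [Field k₁] {𝒱₁ : VarClass k₁} {ops₁ : CycleOps 𝒱₁}

/-- An extension `k` of the base field `k₁` such that the varieties over `k` have models over `k₁`
(for example the algebraic closure of a finitely generated extension field of the algebraically
closed field `k₁`), with its Weil cohomology theory (for example `l`-adic cohomology). -/
structure Extension (W₁ : WeilCohomology.{u, v} ops₁) where
  /-- the extension field -/
  k : Type u
  [field : Field k]
  /-- the varieties over `k` -/
  𝒱 : VarClass k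
  /-- the operations on the cycles on these varieties -/
  ops : CycleOps 𝒱
  /-- the cohomology theory -/
  W : WeilCohomology.{u, v} ops
  /-- the very ample divisors -/
  amp : ∀ X : 𝒱.Obj, Set X.Cycles
  polarisation : IsPolarisation W amp
  models : HasModels W₁ W amp

attribute [instance] Extension.field

/-- Over one of the extensions in `𝓔` there is a generic hyperplane section of the square of `Y`,
for the divisor `D × Y + Y × D`. -/
def HasSection {W₁ : WeilCohomology.{u, v} ops₁} (𝓔 : Set (Extension W₁)) (Y : 𝒱₁.Obj)
    (D : Y.Cycles) : Prop :=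
  ∃ F ∈ 𝓔, Nonempty (HyperplaneSection W₁ F.W (Y.prod Y) (addDiv ops₁ D D))

/-- For every variety `X` over `k₁` of positive dimension there is a divisor `D` on `X` with hard
Lefschetz (any sufficiently ample divisor) such that, over one of the extensions in `𝓔`, there is a
generic hyperplane section of the square of `X × P × P` with respect to the divisor defined by `D`
and by `h` (`P` is the projective line over `k₁` and `h` is a point of `P`). -/
def HasSections {W₁ : WeilCohomology.{u, v} ops₁} (𝓔 : Set (Extension W₁)) (P : 𝒱₁.Obj)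
    (h : P.Cycles) : Prop :=
  ∀ X : 𝒱₁.Obj, 1 ≤ X.dim → ∃ D, Lef W₁ X D ∧
    HasSection 𝓔 ((X.prod P).prod P) (addDiv ops₁ (addDiv ops₁ D h) h)

end Ext

end Pool.Agent.N209.GX
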